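import Pool.Agent.H931R3.LATop

set_option autoImplicit false

/-!
# Linear arboricity of products with acyclically edge coloured graphs and hypercubes

`H931R3.LA.la G` is the linear arboricity (the same expression as in the frozen statement S07085),
`H931R3.LA.AEC H q` says that `H` has an acyclic edge colouring with `q` colours and
`H931R3.LA.cube n` is the hypercube graph on `Fin n → Bool`.
-/

namespace Pool.Agent.Results.MP_0a041d_co.AcyclicColourings

open SimpleGraph H931R3.LA

theorem result :
    -- `la (G □ H) ≤ max (la G) ⌈(Δ(G) + q)/2⌉` if `H` has an acyclic edge `q`-colouring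
    (∀ (V W : Type) [Finite V] [Finite W] (G : SimpleGraph V) (H : SimpleGraph W) (q k : ℕ),
      2 ≤ q → AEC H q → la G ≤ k → (∀ v, (G.neighborSet v).ncard + q ≤ 2 * k) →
      la (G □ H) ≤ k) ∧
    -- regular graphs
    (∀ (V W : Type) [Finite V] [Finite W] [Nonempty V] [Nonempty W] (G : SimpleGraph V)
      (H : SimpleGraph W) (r s q : ℕ), 0 < r → (∀ v, (G.neighborSet v).ncard = r) →
      (∀ w, (H.neighborSet w).ncard = s) → 2 ≤ q → AEC H q →
      r + q ≤ 2 * ((r + s + 2) / 2) →
      la (G □ H) = max (la G) ((r + s + 2) / 2) ∧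
      (r ≤ s + 2 → la (G □ H) = (r + s + 2) / 2)) ∧
    -- hypercubes
    (∀ (V : Type) [Finite V] [Nonempty V] (G : SimpleGraph V) (r n : ℕ), 0 < r →
      (∀ v, (G.neighborSet v).ncard = r) →
      la (G □ cube n) = max (la G) ((r + n + 2) / 2) ∧
      (r ≤ n + 2 → la (G □ cube n) = (r + n + 2) / 2)) := by
  refine ⟨?_, ?_, ?_⟩
  · intro V W _ _ G H q k hq hH h1 h2
    have h := la_absorb G H ⊥ q k hq hH h1 h2
    rw [la_bot, sup_bot_eq] at h
    exact h
  · intro V W _ _ _ _ G H r s q hr h1 h2 hq h3 h4
    have h := la_aec G H r s q hr h1 h2 hq h3 h4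
    refine ⟨h, fun hrs => ?_⟩
    have hg := la_greedy G r (fun v => (h1 v).le)
    rw [h]
    omega
  · intro V _ _ G r n hr h1
    have h := la_cube n V G r hr h1
    refine ⟨h, fun hrs => ?_⟩
    have hg := la_greedy G r (fun v => (h1 v).le)
    rw [h]
    omega

end Pool.Agent.Results.MP_0a041d_co.AcyclicColourings
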