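import Pool.Agent.H931R3.LATop

set_option autoImplicit false

/-!
# Linear arboricity of Cartesian products

`H931R3.LA.la G` is the linear arboricity (the same expression as in the frozen statement S07085).

First part: `la (G □ H) ≤ max (la G) (la H + ⌈Δ(G)/2⌉)` for all finite graphs `G`, `H`.
Second part: what this gives for the equality of Q1: for regular graphs it is enough that one of
the two factors satisfies the equality.
-/

namespace Pool.Agent.Results.MP_0a041d_co.CartesianProducts

open SimpleGraph H931R3.LA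

theorem result :
    ∀ (V W : Type) [Finite V] [Finite W] [Nonempty V] [Nonempty W] (G : SimpleGraph V)
      (H : SimpleGraph W),
      (∀ k : ℕ, la G ≤ k → (∀ v, (G.neighborSet v).ncard + 2 * la H ≤ 2 * k) →
        la (G □ H) ≤ k) ∧
      (∀ r s : ℕ, 0 < r → 0 < s → (∀ v, (G.neighborSet v).ncard = r) →
        (∀ w, (H.neighborSet w).ncard = s) → la H = (s + 2) / 2 →
        (Even r ∨ Odd s ∨ la G = (r + 2) / 2) →
        (∀ x, ((G □ H).neighborSet x).ncard = r + s) ∧
        la (G □ H) = max (la G) ((r + s + 2) / 2) ∧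
        (r ≤ s + 2 ∨ la G = (r + 2) / 2 → la (G □ H) = (r + s + 2) / 2)) := by
  intro V W _ _ _ _ G H
  refine ⟨fun k h1 h2 => la_max G H k h1 h2, ?_⟩
  intro r s hr hs h1 h2 h3 h4
  have h : la (G □ H) = max (la G) ((r + s + 2) / 2) := by
    rcases h4 with h4 | h4 | h4
    · exact la_one_factor G H r s hs h1 h2 h3 (Or.inl h4)
    · exact la_one_factor G H r s hs h1 h2 h3 (Or.inr h4)
    · rw [la_regular G H r s hr h1 h2 h4 h3, h4]
      omega
  refine ⟨deg_reg G H r s h1 h2, h, ?_⟩
  have hg := la_greedy G r (fun v => (h1 v).le)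
  rw [h]
  omega

end Pool.Agent.Results.MP_0a041d_co.CartesianProducts
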