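import Pool.Agent.H250R3.LAC.Top

set_option autoImplicit false

/-!
# Linear arboricity: Cayley graphs with connection elements of large order

`H931R3.LA.la G` is the linear arboricity (the same expression as in the frozen statement S07085).

Parts (1), (2): regular graphs with a 2-factorization (and a perfect matching, for odd degree) into
long cycles.  Part (3): Cayley graphs of finite groups.
-/

namespace Pool.Agent.Results.MP_0a041d_co.LongCycles

open SimpleGraph H931R3.LA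

theorem result :
    (∀ (V : Type) [Finite V] [Nonempty V] (d : ℕ) (σ : Fin d → Equiv.Perm V)
      (G : SimpleGraph V), 1 ≤ d →
      (∀ u v, G.Adj u v ↔ ∃ i, σ i u = v ∨ σ i v = u) →
      (∀ v, (G.neighborSet v).ncard = 2 * d) →
      (∀ (i : Fin d) (v : V) (n : ℕ), 0 < n → n < 64 * d → (σ i ^ n) v ≠ v) →
      la G = d + 1) ∧
    (∀ (V : Type) [Finite V] [Nonempty V] (d : ℕ) (σ : Fin d → Equiv.Perm V) (τ : V → V)
      (G : SimpleGraph V), 1 ≤ d → (∀ v, τ (τ v) = v) → (∀ v, τ v ≠ v) →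
      (∀ u v, G.Adj u v ↔ τ u = v ∨ ∃ i, σ i u = v ∨ σ i v = u) →
      (∀ v, (G.neighborSet v).ncard = 2 * d + 1) →
      (∀ (i : Fin d) (v : V) (n : ℕ), 0 < n → n < 128 * d → (σ i ^ n) v ≠ v) →
      la G = d + 1) ∧
    (∀ (Γ : Type) [Group Γ] [Finite Γ] (A : Finset Γ) (G : SimpleGraph Γ),
      A.Nonempty → (∀ a ∈ A, a⁻¹ ∈ A) → (∀ u v, G.Adj u v ↔ u⁻¹ * v ∈ A) →
      ((∀ a ∈ A, 32 * A.card ≤ orderOf a) ∨
        (2 ≤ A.card ∧ ∃ t ∈ A, orderOf t = 2 ∧
          ∀ a ∈ A, a ≠ t → 64 * (A.card - 1) ≤ orderOf a) ∨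
        (∀ p : ℕ, p.Prime → p ∣ Nat.card Γ → 32 * A.card ≤ p)) →
      (∀ v, (G.neighborSet v).ncard = A.card) ∧ la G = (A.card + 2) / 2) := by
  refine ⟨?_, ?_, ?_⟩
  · intro V _ _ d σ G hd hG hreg hlen
    exact Pool.Agent.H250R3.LAC.la_of_perms
      (Pool.Agent.H250R3.LAC.pick_of_pickR Pool.Agent.H250R3.LAC.pickR) hd σ hlen G hG hreg
  · intro V _ _ d σ τ G hd h1 h2 hG hreg hlen
    exact Pool.Agent.H250R3.LAC.la_of_perms_odd hd σ τ h1 h2 hlen G hG hreg
  · intro Γ _ _ A G hne hsym hG h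
    rcases h with h | ⟨h2, t, ht, ht2, h⟩ | h
    · exact Pool.Agent.H250R3.LAC.la_cayley
        (Pool.Agent.H250R3.LAC.pick_of_pickR Pool.Agent.H250R3.LAC.pickR) A hne hsym h G hG
    · exact Pool.Agent.H250R3.LAC.la_cayley_odd A t ht ht2 h2 hsym h G hG
    · refine Pool.Agent.H250R3.LAC.la_cayley_primes
        (Pool.Agent.H250R3.LAC.pick_of_pickR Pool.Agent.H250R3.LAC.pickR) A hne hsym ?_ h G hG
      intro h1
      refine G.irrefl (v := (1 : Γ)) ((hG 1 1).mpr ?_)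
      simpa using h1

end Pool.Agent.Results.MP_0a041d_co.LongCycles
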